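import Mathlib

/-!
# Productivity of the Menger property under `𝔲 < 𝔤` (semifilter trichotomy)

Under `𝔲 < 𝔤` every weakly concentrated space is productively Menger.
-/

open Set
open scoped Cardinal

namespace Pool.Agent.Results.MP_9a1337_lc.ProductivelyMenger

/-- Menger's covering property. -/
def IsMenger (X : Type) [TopologicalSpace X] : Prop :=
  ∀ 𝒰 : ℕ → Set (Set X), (∀ n, (∀ U ∈ 𝒰 n, IsOpen U) ∧ ⋃₀ 𝒰 n = univ) →
    ∃ 𝓕 : ℕ → Set (Set X), (∀ n, 𝓕 n ⊆ 𝒰 n ∧ (𝓕 n).Finite) ∧ ⋃ n, ⋃₀ 𝓕 n = univ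

/-- Groupwise dense families of infinite sets of natural numbers. -/
def GroupwiseDense (𝒢 : Set (Set ℕ)) : Prop :=
  (∀ A ∈ 𝒢, A.Infinite) ∧
  (∀ A ∈ 𝒢, ∀ B : Set ℕ, B.Infinite → (B \ A).Finite → B ∈ 𝒢) ∧
  ∀ h : ℕ → ℕ, StrictMono h →
    ∃ I : Set ℕ, I.Infinite ∧ (⋃ i ∈ I, Ico (h i) (h (i + 1))) ∈ 𝒢

/-- The groupwise density number `𝔤`: the least cardinality of a set of groupwise dense families
with empty intersection. -/
noncomputable def gNumber : Cardinal.{0} :=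
  sInf {κ | ∃ 𝓕 : Set (Set (Set ℕ)), #𝓕 = κ ∧ (∀ 𝒢 ∈ 𝓕, GroupwiseDense 𝒢) ∧ ⋂₀ 𝓕 = ∅}

/-- The ultrafilter number `𝔲`: the least cardinality of a base of a nonprincipal ultrafilter on
the natural numbers. -/
noncomputable def uNumber : Cardinal.{0} :=
  sInf {κ | ∃ (U : Ultrafilter ℕ) (ℬ : Set (Set ℕ)), #ℬ = κ ∧ (∀ n : ℕ, {n}ᶜ ∈ U) ∧
    (∀ B ∈ ℬ, B ∈ U) ∧ ∀ A ∈ U, ∃ B ∈ ℬ, B ⊆ A}

/-- `X` is weakly concentrated: whenever every sigma-compact set `Q ⊆ X` is assigned a family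
`𝒱 Q` of at most `𝔲` open sets containing `Q`, there is a family `𝒬` of fewer than `𝔤` sigma-compact
subsets of `X` such that every point of `X` belongs, for some `Q ∈ 𝒬`, to all members of `𝒱 Q`. -/
def WeaklyConcentrated (X : Type) [TopologicalSpace X] : Prop :=
  ∀ 𝒱 : Set X → Set (Set X),
    (∀ Q, IsSigmaCompact Q → #(𝒱 Q) ≤ uNumber ∧ ∀ V ∈ 𝒱 Q, IsOpen V ∧ Q ⊆ V) →
    ∃ 𝒬 : Set (Set X), #𝒬 < gNumber ∧ (∀ Q ∈ 𝒬, IsSigmaCompact Q) ∧
      ∀ x, ∃ Q ∈ 𝒬, ∀ V ∈ 𝒱 Q, x ∈ V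

/-! ## Menger spaces and functions -/

/-- A function into `ℕ → ℕ` whose sublevel sets are open. -/
def Usc {Y : Type} [TopologicalSpace Y] (F : Y → ℕ → ℕ) : Prop :=
  ∀ n k, IsOpen {y | F y n ≤ k}

theorem menger_bound {Y : Type} [TopologicalSpace Y] (hY : IsMenger Y) {F : Y → ℕ → ℕ}
    (hF : Usc F) : ∃ h : ℕ → ℕ, ∀ y, ∃ n, F y n ≤ h n := by
  classical
  obtain ⟨𝓕, h𝓕, hcov⟩ := hY (fun n => range fun k => {y | F y n ≤ k}) (by
    intro n
    refine ⟨?_, ?_⟩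
    · rintro U ⟨k, rfl⟩
      exact hF n k
    · rw [eq_univ_iff_forall]
      intro y
      exact ⟨_, ⟨F y n, rfl⟩, le_refl (F y n)⟩)
  have key : ∀ n, ∃ m : ℕ, ∀ U ∈ 𝓕 n, U ⊆ {y | F y n ≤ m} := by
    intro n
    have hfin := (h𝓕 n).2
    have hsub : ∀ U ∈ 𝓕 n, ∃ k : ℕ, {y | F y n ≤ k} = U := fun U hU => (h𝓕 n).1 hU
    choose! k hk using hsub
    obtain ⟨m, hm⟩ := (hfin.image k).bddAbove
    refine ⟨m, fun U hU y hy => ?_⟩
    have h1 : k U ≤ m := hm (mem_image_of_mem k hU)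
    rw [← hk U hU] at hy
    exact le_trans hy h1
  choose h hh using key
  refine ⟨h, fun y => ?_⟩
  have : y ∈ ⋃ n, ⋃₀ 𝓕 n := by rw [hcov]; trivial
  obtain ⟨n, U, hU, hyU⟩ := by simpa using this
  exact ⟨n, hh n U hU hyU⟩

/-- The converse: a covering criterion for Lindelöf spaces. -/
theorem menger_bound_infinite {Y : Type} [TopologicalSpace Y] (hY : IsMenger Y) {F : Y → ℕ → ℕ}
    (hF : Usc F) : ∃ h : ℕ → ℕ, StrictMono h ∧ ∀ y, ∀ N, ∃ n, N ≤ n ∧ F y n ≤ h n := by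
  have key : ∀ N, ∃ h : ℕ → ℕ, ∀ y, ∃ n, F y (n + N) ≤ h n := fun N =>
    menger_bound hY (F := fun y n => F y (n + N)) (fun n k => hF (n + N) k)
  choose h hh using key
  -- first a bound, then a strictly monotone one
  let g : ℕ → ℕ := fun n => ∑ N ∈ Finset.range (n + 1), h N (n - N)
  have hg : ∀ n N, N ≤ n → h N (n - N) ≤ g n := by
    intro n N hN
    exact Finset.single_le_sum (f := fun N => h N (n - N)) (fun _ _ => Nat.zero_le _)
      (Finset.mem_range.2 (by omega))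
  let e : ℕ → ℕ := fun n => n + ∑ m ∈ Finset.range (n + 1), g m
  refine ⟨e, ?_, ?_⟩
  · refine strictMono_nat_of_lt_succ fun n => ?_
    simp only [e]
    rw [Finset.sum_range_succ _ (n + 1)]
    omega
  · intro y N
    obtain ⟨n, hn⟩ := hh N y
    refine ⟨n + N, by omega, ?_⟩
    calc F y (n + N) ≤ h N n := hn
      _ ≤ g (n + N) := by
          have := hg (n + N) N (by omega)
          simpa using this
      _ ≤ ∑ m ∈ Finset.range (n + N + 1), g m :=
          Finset.single_le_sum (f := g) (fun _ _ => Nat.zero_le _)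
            (Finset.mem_range.2 (by omega))
      _ ≤ e (n + N) := by simp only [e]; omega

/-- Interval form: for monotone inflationary `Φ` there is a sequence which catches infinitely many
steps of every `Φ y`. -/
theorem menger_steps {Y : Type} [TopologicalSpace Y] (hY : IsMenger Y) {Φ : Y → ℕ → ℕ}
    (hΦ : Usc Φ) (hmono : ∀ y, Monotone (Φ y)) :
    ∃ i : ℕ → ℕ, StrictMono i ∧ ∀ y, ∀ N, ∃ j, N ≤ j ∧ Φ y (i j) ≤ i (j + 1) := by
  have husc : Usc (fun y n => Φ y (Φ y n)) := by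
    intro n k
    have : {y | Φ y (Φ y n) ≤ k} =
        ⋃ m : ℕ, {y | Φ y n ≤ m} ∩ {y | Φ y m ≤ k} := by
      ext y
      simp only [mem_ofPred_eq, mem_iUnion, mem_inter_iff]
      constructor
      · intro h
        exact ⟨Φ y n, le_refl _, h⟩
      · rintro ⟨m, h1, h2⟩
        exact le_trans (hmono y h1) h2
    rw [this]
    exact isOpen_iUnion fun m => (hΦ n m).inter (hΦ m k)
  obtain ⟨h, hstrict, hh⟩ := menger_bound_infinite hY husc
  -- `i (j+1) = h (i j) + 1`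
  let i : ℕ → ℕ := fun j => Nat.rec 0 (fun _ a => h a + 1) j
  have hi : ∀ j, i (j + 1) = h (i j) + 1 := fun j => rfl
  have hi_strict : StrictMono i := by
    refine strictMono_nat_of_lt_succ fun j => ?_
    rw [hi]
    have := hstrict.le_apply (x := i j)
    omega
  refine ⟨i, hi_strict, fun y N => ?_⟩
  obtain ⟨n, hn, hΦn⟩ := hh y (i (N + 1))
  -- find the interval containing `n`
  have hex : ∃ j, n < i (j + 1) := ⟨n, lt_of_lt_of_le (Nat.lt_succ_self n) (hi_strict.le_apply)⟩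
  classical
  obtain ⟨j, hj, hjmin⟩ : ∃ j, n < i (j + 1) ∧ ∀ m < j, ¬ n < i (m + 1) :=
    ⟨Nat.find hex, Nat.find_spec hex, fun m hm => Nat.find_min hex hm⟩
  have hij : i j ≤ n := by
    rcases Nat.eq_zero_or_pos j with h0 | h0
    · subst h0
      exact Nat.zero_le _
    · have := hjmin (j - 1) (by omega)
      rw [Nat.sub_add_cancel h0] at this
      omega
  have hNj : N ≤ j := by
    by_contra hcon
    push Not at hcon
    have h1 : i (j + 1) ≤ i (N + 1) := hi_strict.monotone (show j + 1 ≤ N + 1 by omega)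
    omega
  have hbound : Φ y (Φ y n) ≤ i (j + 2) := by
    have h1 : h n ≤ h (i (j + 1)) := hstrict.monotone hj.le
    have h2 : i (j + 2) = h (i (j + 1)) + 1 := hi (j + 1)
    omega
  by_cases hc : Φ y n ≤ i (j + 1)
  · exact ⟨j, hNj, le_trans (hmono y hij) hc⟩
  · push Not at hc
    refine ⟨j + 1, by omega, ?_⟩
    exact le_trans (hmono y hc.le) hbound

/-! ## The next-element function and groupwise dense families -/

open Classical in
/-- The least element of `A` that is at least `n`. -/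
noncomputable def next (A : Set ℕ) (n : ℕ) : ℕ := sInf {a | a ∈ A ∧ n ≤ a}

theorem next_mem {A : Set ℕ} (hA : A.Infinite) (n : ℕ) : next A n ∈ A ∧ n ≤ next A n := by
  have hne : {a | a ∈ A ∧ n ≤ a}.Nonempty := by
    obtain ⟨a, ha, hna⟩ := hA.exists_gt n
    exact ⟨a, ha, hna.le⟩
  exact Nat.sInf_mem hne

theorem next_le {A : Set ℕ} {n a : ℕ} (ha : a ∈ A) (hna : n ≤ a) : next A n ≤ a :=
  Nat.sInf_le ⟨ha, hna⟩

/-- The family attached to a function `F` on a space and a set `B` of natural numbers. -/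
def family {Y : Type} (F : Y → ℕ → ℕ) (B : Set ℕ) : Set (Set ℕ) :=
  {A | A.Infinite ∧ ∀ y, ∀ N, ∃ n ∈ B, N ≤ n ∧ F y n ≤ next A n}

theorem family_groupwiseDense {Y : Type} [TopologicalSpace Y] (hY : IsMenger Y)
    {F : Y → ℕ → ℕ} (hF : Usc F) {B : Set ℕ} (hB : B.Infinite) :
    GroupwiseDense (family F B) := by
  classical
  refine ⟨fun A hA => hA.1, ?_, ?_⟩
  · intro A hA A' hA' hfin
    refine ⟨hA', fun y N => ?_⟩
    obtain ⟨b, hb⟩ := hfin.bddAbove
    obtain ⟨n, hnB, hNn, hFn⟩ := hA.2 y (max N (b + 1))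
    refine ⟨n, hnB, le_trans (le_max_left _ _) hNn, le_trans hFn ?_⟩
    have h1 := next_mem hA' n
    have h2 : next A' n ∈ A := by
      by_contra hcon
      have h3 : next A' n ≤ b := hb ⟨h1.1, hcon⟩
      have h4 : b + 1 ≤ n := le_trans (le_max_right _ _) hNn
      omega
    exact next_le h2 h1.2
  · intro p hp
    -- the monotone majorant
    let G : Y → ℕ → ℕ := fun y n => ∑ m ∈ Finset.range (n + 1), F y m
    have hGusc : Usc G := by
      intro n
      induction n with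
      | zero =>
        intro k
        have := hF 0 k
        simpa [G] using this
      | succ n ih =>
        intro k
        have : {y | G y (n + 1) ≤ k} =
            ⋃ a : ℕ, ⋃ b : ℕ, ⋃ (_ : a + b ≤ k), {y | G y n ≤ a} ∩ {y | F y (n + 1) ≤ b} := by
          ext y
          simp only [mem_ofPred_eq, mem_iUnion, mem_inter_iff, exists_prop, G]
          rw [Finset.sum_range_succ _ (n + 1)]
          constructor
          · intro h
            exact ⟨_, _, h, le_refl _, le_refl _⟩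
          · rintro ⟨a, b, hab, h1, h2⟩
            omega
        rw [this]
        exact isOpen_iUnion fun a => isOpen_iUnion fun b => isOpen_iUnion fun _ =>
          (ih a).inter (hF (n + 1) b)
    have hGmono : ∀ y, Monotone (G y) := by
      intro y a b hab
      exact Finset.sum_le_sum_of_subset (Finset.range_mono (by omega))
    have hFG : ∀ y n, F y n ≤ G y n := fun y n =>
      Finset.single_le_sum (f := F y) (fun _ _ => Nat.zero_le _) (Finset.mem_range.2 (by omega))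
    -- points of `B` above the end of a block
    let e : ℕ → ℕ := fun k => next B (p (k + 1))
    have he : ∀ k, e k ∈ B ∧ p (k + 1) ≤ e k := fun k => next_mem hB _
    have hemono : Monotone e := by
      intro a b hab
      exact next_le (he b).1 (le_trans (hp.monotone (by omega)) (he b).2)
    let Φ : Y → ℕ → ℕ := fun y k => G y (e k) + e k
    have hΦusc : Usc Φ := by
      intro n k
      by_cases hk : e n ≤ k
      · have : {y | Φ y n ≤ k} = {y | G y (e n) ≤ k - e n} := by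
          ext y
          simp only [mem_ofPred_eq, Φ]
          omega
        rw [this]
        exact hGusc _ _
      · have : {y | Φ y n ≤ k} = ∅ := by
          ext y
          simp only [mem_ofPred_eq, Φ, mem_empty_iff_false, iff_false]
          omega
        rw [this]
        exact isOpen_empty
    have hΦmono : ∀ y, Monotone (Φ y) := by
      intro y a b hab
      exact Nat.add_le_add (hGmono y (hemono hab)) (hemono hab)
    obtain ⟨i, hi, hcatch⟩ := menger_steps hY hΦusc hΦmono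
    refine ⟨range i, infinite_range_of_injective hi.injective, ?_, ?_⟩
    · refine infinite_of_injective_forall_mem (f := fun j => p (i j)) ?_ ?_
      · exact (hp.comp hi).injective
      · intro j
        simp only [mem_iUnion, exists_prop]
        exact ⟨i j, ⟨j, rfl⟩, le_refl _, hp (Nat.lt_succ_self _)⟩
    · intro y N
      obtain ⟨j, hNj, hj⟩ := hcatch y N
      refine ⟨e (i j), (he _).1, ?_, ?_⟩
      · have h1 := (he (i j)).2
        have h2 := hp.le_apply (x := i j + 1)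
        have h3 := hi.le_apply (x := j)
        omega
      · have hFe : F y (e (i j)) ≤ i (j + 1) := by
          have h1 := hFG y (e (i j))
          have h2 : G y (e (i j)) + e (i j) ≤ i (j + 1) := hj
          omega
        have heij : e (i j) ≤ i (j + 1) := by
          have h2 : G y (e (i j)) + e (i j) ≤ i (j + 1) := hj
          omega
        set A : Set ℕ := ⋃ l ∈ range i, Ico (p l) (p (l + 1)) with hA
        have hAinf : A.Infinite := by
          refine infinite_of_injective_forall_mem (f := fun j => p (i j)) ?_ ?_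
          · exact (hp.comp hi).injective
          · intro j
            simp only [hA, mem_iUnion, exists_prop]
            exact ⟨i j, ⟨j, rfl⟩, le_refl _, hp (Nat.lt_succ_self _)⟩
        have hn := next_mem hAinf (e (i j))
        obtain ⟨l, hl, hl1, hl2⟩ : ∃ l ∈ range i, p l ≤ next A (e (i j)) ∧
            next A (e (i j)) < p (l + 1) := by
          have := hn.1
          rw [hA] at this
          simp only [mem_iUnion, exists_prop] at this
          obtain ⟨l, hl, hl'⟩ := this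
          exact ⟨l, hl, hl'.1, hl'.2⟩
        obtain ⟨t, rfl⟩ := hl
        -- `t > j` because the value is at least `p (i j + 1)`
        have htj : j < t := by
          by_contra hcon
          push Not at hcon
          have h1 : p (i t + 1) ≤ p (i j + 1) := hp.monotone (by
            have := hi.monotone hcon
            omega)
          have h2 := (he (i j)).2
          omega
        have h1 : i (j + 1) ≤ i t := hi.monotone htj
        have h2 : i t ≤ p (i t) := hp.le_apply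
        omega

/-! ## Consequences of `𝔲 < 𝔤` -/

theorem exists_mem_of_lt_gNumber {𝓕 : Set (Set (Set ℕ))} (hcard : #𝓕 < gNumber)
    (h𝓕 : ∀ 𝒢 ∈ 𝓕, GroupwiseDense 𝒢) : ∃ A, ∀ 𝒢 ∈ 𝓕, A ∈ 𝒢 := by
  by_contra hcon
  have hempty : ⋂₀ 𝓕 = ∅ := by
    rw [eq_empty_iff_forall_notMem]
    intro A hA
    exact hcon ⟨A, fun 𝒢 h𝒢 => hA 𝒢 h𝒢⟩
  exact absurd (csInf_le' ⟨𝓕, rfl, h𝓕, hempty⟩ : gNumber ≤ #𝓕) (not_le.2 hcard)

theorem exists_base : ∃ (U : Ultrafilter ℕ) (ℬ : Set (Set ℕ)), #ℬ = uNumber ∧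
    (∀ n : ℕ, {n}ᶜ ∈ U) ∧ (∀ B ∈ ℬ, B ∈ U) ∧ ∀ A ∈ U, ∃ B ∈ ℬ, B ⊆ A := by
  have hne : {κ | ∃ (U : Ultrafilter ℕ) (ℬ : Set (Set ℕ)), #ℬ = κ ∧ (∀ n : ℕ, {n}ᶜ ∈ U) ∧
      (∀ B ∈ ℬ, B ∈ U) ∧ ∀ A ∈ U, ∃ B ∈ ℬ, B ⊆ A}.Nonempty := by
    refine ⟨_, Filter.hyperfilter ℕ, {A | A ∈ Filter.hyperfilter ℕ}, rfl, ?_, ?_, ?_⟩
    · intro n
      exact Filter.compl_mem_hyperfilter_of_finite (finite_singleton n)
    · intro B hB
      exact hB
    · intro A hA
      exact ⟨A, hA, subset_rfl⟩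
  exact csInf_mem hne

theorem infinite_of_mem {U : Ultrafilter ℕ} (hU : ∀ n : ℕ, {n}ᶜ ∈ U) {A : Set ℕ} (hA : A ∈ U) :
    A.Infinite := by
  intro hfin
  have h1 : (⋂ n ∈ A, ({n}ᶜ : Set ℕ)) ∈ U := (Filter.biInter_mem hfin).2 fun n _ => hU n
  have h2 : A ∩ (⋂ n ∈ A, ({n}ᶜ : Set ℕ)) ∈ U := Filter.inter_mem hA h1
  have h3 : A ∩ (⋂ n ∈ A, ({n}ᶜ : Set ℕ)) = ∅ := by
    ext m
    simp only [mem_inter_iff, mem_iInter, mem_compl_iff, mem_singleton_iff, mem_empty_iff_false,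
      iff_false, not_and]
    intro hm hcon
    exact hcon m hm rfl
  rw [h3] at h2
  exact Ultrafilter.empty_notMem h2

theorem base_nonempty {U : Ultrafilter ℕ} {ℬ : Set (Set ℕ)}
    (hbase : ∀ A ∈ U, ∃ B ∈ ℬ, B ⊆ A) : ℬ.Nonempty := by
  obtain ⟨B, hB, -⟩ := hbase Set.univ Filter.univ_mem
  exact ⟨B, hB⟩

theorem aleph0_le_base {U : Ultrafilter ℕ} {ℬ : Set (Set ℕ)} (hU : ∀ n : ℕ, {n}ᶜ ∈ U)
    (hℬ : ∀ B ∈ ℬ, B ∈ U) (hbase : ∀ A ∈ U, ∃ B ∈ ℬ, B ⊆ A) : ℵ₀ ≤ #ℬ := by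
  by_contra hcon
  push Not at hcon
  have hfin : ℬ.Finite := Cardinal.lt_aleph0_iff_set_finite.1 hcon
  have h1 : ⋂₀ ℬ ∈ U := (Filter.sInter_mem hfin).2 hℬ
  obtain ⟨b, hb⟩ := (infinite_of_mem hU h1).nonempty
  obtain ⟨B, hB, hBb⟩ := hbase _ (hU b)
  exact hBb (hb B hB) rfl

/-- If `A` meets every member of a base of `U` then `A ∈ U`. -/
theorem mem_of_meets {U : Ultrafilter ℕ} {ℬ : Set (Set ℕ)}
    (hbase : ∀ A ∈ U, ∃ B ∈ ℬ, B ⊆ A) {A : Set ℕ} (hA : ∀ B ∈ ℬ, (B ∩ A).Nonempty) : A ∈ U := by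
  by_contra hcon
  obtain ⟨B, hB, hBA⟩ := hbase _ (Ultrafilter.compl_mem_iff_notMem.2 hcon)
  obtain ⟨n, hnB, hnA⟩ := hA B hB
  exact hBA hnB hnA

/-- Every Menger space is bounded modulo the ultrafilter. -/
theorem menger_ultra {U : Ultrafilter ℕ}
    {ℬ : Set (Set ℕ)} (hcard : #ℬ < gNumber) (hU : ∀ n : ℕ, {n}ᶜ ∈ U) (hℬ : ∀ B ∈ ℬ, B ∈ U)
    (hbase : ∀ A ∈ U, ∃ B ∈ ℬ, B ⊆ A) {Y : Type} [TopologicalSpace Y] (hY : IsMenger Y)
    {F : Y → ℕ → ℕ} (hF : Usc F) : ∃ h : ℕ → ℕ, ∀ y, {n | F y n ≤ h n} ∈ U := by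
  obtain ⟨A, hA⟩ := exists_mem_of_lt_gNumber (𝓕 := family F '' ℬ)
    (lt_of_le_of_lt Cardinal.mk_image_le hcard) (by
      rintro _ ⟨B, hB, rfl⟩
      exact family_groupwiseDense hY hF (infinite_of_mem hU (hℬ B hB)))
  refine ⟨next A, fun y => mem_of_meets hbase fun B hB => ?_⟩
  obtain ⟨n, hnB, -, hn⟩ := (hA _ (mem_image_of_mem _ hB)).2 y 0
  exact ⟨n, hnB, hn⟩

theorem menger_unit : IsMenger Unit := by
  intro 𝒰 h𝒰
  have key : ∀ n, ∃ V ∈ 𝒰 n, () ∈ V := by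
    intro n
    have : () ∈ ⋃₀ 𝒰 n := by rw [(h𝒰 n).2]; trivial
    obtain ⟨V, hV, hV'⟩ := this
    exact ⟨V, hV, hV'⟩
  choose V hV hV' using key
  refine ⟨fun n => {V n}, fun n => ⟨by simpa using hV n, finite_singleton _⟩, ?_⟩
  rw [eq_univ_iff_forall]
  rintro ⟨⟩
  simp only [sUnion_singleton, mem_iUnion]
  exact ⟨0, hV' 0⟩

/-- Fewer than `𝔤` functions are bounded modulo the ultrafilter. -/
theorem functions_ultra {U : Ultrafilter ℕ}
    {ℬ : Set (Set ℕ)} (hcard : #ℬ < gNumber) (hU : ∀ n : ℕ, {n}ᶜ ∈ U) (hℬ : ∀ B ∈ ℬ, B ∈ U)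
    (hbase : ∀ A ∈ U, ∃ B ∈ ℬ, B ⊆ A) {ι : Type} (S : Set ι) (hS : #S < gNumber)
    (g : ι → ℕ → ℕ) : ∃ h : ℕ → ℕ, ∀ i ∈ S, {n | g i n ≤ h n} ∈ U := by
  have hinf : ℵ₀ ≤ gNumber := (aleph0_le_base hU hℬ hbase).trans hcard.le
  obtain ⟨A, hA⟩ := exists_mem_of_lt_gNumber
    (𝓕 := (fun q : ι × Set ℕ => family (fun _ : Unit => g q.1) q.2) '' (S ×ˢ ℬ))
    (by
      refine lt_of_le_of_lt Cardinal.mk_image_le ?_
      rw [Cardinal.mk_setProd]
      exact Cardinal.mul_lt_of_lt hinf hS hcard)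
    (by
      rintro _ ⟨⟨i, B⟩, ⟨hi, hB⟩, rfl⟩
      refine family_groupwiseDense menger_unit ?_ (infinite_of_mem hU (hℬ B hB))
      intro n k
      exact isOpen_discrete _)
  refine ⟨next A, fun i hi => mem_of_meets hbase fun B hB => ?_⟩
  obtain ⟨n, hnB, -, hn⟩ := (hA _ (mem_image_of_mem _
    (show ((i, B) : ι × Set ℕ) ∈ S ×ˢ ℬ from ⟨hi, hB⟩))).2 () 0
  exact ⟨n, hnB, hn⟩

/-! ## Finite unions of open rectangles -/

/-- The union of the first `k + 1` rectangles. -/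
def rect {X Y : Type} (I : ℕ → Set X) (J : ℕ → Set Y) (k : ℕ) : Set (X × Y) :=
  {p | ∃ i ≤ k, p.1 ∈ I i ∧ p.2 ∈ J i}

theorem rect_mono {X Y : Type} (I : ℕ → Set X) (J : ℕ → Set Y) {k l : ℕ} (h : k ≤ l) :
    rect I J k ⊆ rect I J l := by
  rintro p ⟨i, hi, h1, h2⟩
  exact ⟨i, hi.trans h, h1, h2⟩

theorem isOpen_rect {X Y : Type} [TopologicalSpace X] [TopologicalSpace Y] {I : ℕ → Set X}
    {J : ℕ → Set Y} (hI : ∀ i, IsOpen (I i)) (hJ : ∀ i, IsOpen (J i)) (k : ℕ) :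
    IsOpen (rect I J k) := by
  have : rect I J k = ⋃ i : ℕ, ⋃ (_ : i ≤ k), (I i) ×ˢ (J i) := by
    ext p
    simp only [rect, mem_ofPred_eq, mem_iUnion, mem_prod, exists_prop]
  rw [this]
  exact isOpen_iUnion fun i => isOpen_iUnion fun _ => (hI i).prod (hJ i)

theorem isOpen_left {X Y : Type} [TopologicalSpace X] {I : ℕ → Set X}
    {J : ℕ → Set Y} (hI : ∀ i, IsOpen (I i)) (k : ℕ) (L : Set Y) :
    IsOpen {x | ∀ y ∈ L, (x, y) ∈ rect I J k} := by
  classical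
  rw [isOpen_iff_mem_nhds]
  intro x hx
  have hN : (⋂ i ∈ {i | i ≤ k ∧ x ∈ I i}, I i) ∈ nhds x := by
    refine (Filter.biInter_mem ((finite_le_nat k).subset fun i hi => hi.1)).2 ?_
    intro i hi
    exact (hI i).mem_nhds hi.2
  filter_upwards [hN] with x' hx' y hy
  obtain ⟨i, hik, hxi, hyi⟩ := hx y hy
  refine ⟨i, hik, ?_, hyi⟩
  exact mem_iInter₂.1 hx' i ⟨hik, hxi⟩

theorem isOpen_right {X Y : Type} [TopologicalSpace Y] {I : ℕ → Set X}
    {J : ℕ → Set Y} (hJ : ∀ i, IsOpen (J i)) (k : ℕ) (K : Set X) :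
    IsOpen {y | ∀ x ∈ K, (x, y) ∈ rect I J k} := by
  classical
  rw [isOpen_iff_mem_nhds]
  intro y hy
  have hN : (⋂ i ∈ {i | i ≤ k ∧ y ∈ J i}, J i) ∈ nhds y := by
    refine (Filter.biInter_mem ((finite_le_nat k).subset fun i hi => hi.1)).2 ?_
    intro i hi
    exact (hJ i).mem_nhds hi.2
  filter_upwards [hN] with y' hy' x hx
  obtain ⟨i, hik, hxi, hyi⟩ := hy x hx
  refine ⟨i, hik, hxi, ?_⟩
  exact mem_iInter₂.1 hy' i ⟨hik, hyi⟩

/-- A compact slice is covered by finitely many rectangles. -/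
theorem exists_rect {X Y : Type} [TopologicalSpace X] {I : ℕ → Set X}
    {J : ℕ → Set Y} (hI : ∀ i, IsOpen (I i))
    (hcov : ∀ p : X × Y, ∃ i, p.1 ∈ I i ∧ p.2 ∈ J i) {K : Set X} (hK : IsCompact K) (y : Y) :
    ∃ k, ∀ x ∈ K, (x, y) ∈ rect I J k := by
  classical
  obtain ⟨t, ht⟩ := hK.elim_finite_subcover (fun i : {i : ℕ // y ∈ J i} => I i)
    (fun i => hI i) (by
      intro x _
      obtain ⟨i, h1, h2⟩ := hcov (x, y)
      exact mem_iUnion.2 ⟨⟨i, h2⟩, h1⟩)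
  obtain ⟨k, hk⟩ := (t.image Subtype.val).bddAbove
  refine ⟨k, fun x hx => ?_⟩
  obtain ⟨i, hit, hxi⟩ := mem_iUnion₂.1 (ht hx)
  exact ⟨i, hk (by simpa using ⟨i.2, hit⟩), hxi, i.2⟩

/-- Open covers of a Lindelof product are refined by sequences of open rectangles. -/
theorem exists_rectangles {X Y : Type} [TopologicalSpace X] [TopologicalSpace Y]
    [LindelofSpace (X × Y)] [Nonempty (X × Y)] {𝒰 : Set (Set (X × Y))}
    (hopen : ∀ U ∈ 𝒰, IsOpen U) (hcov : ⋃₀ 𝒰 = Set.univ) :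
    ∃ (I : ℕ → Set X) (J : ℕ → Set Y) (G : ℕ → Set (X × Y)), (∀ i, IsOpen (I i)) ∧
      (∀ i, IsOpen (J i)) ∧ (∀ i, G i ∈ 𝒰) ∧ (∀ i, I i ×ˢ J i ⊆ G i) ∧
      ∀ p : X × Y, ∃ i, p.1 ∈ I i ∧ p.2 ∈ J i := by
  have key : ∀ p : X × Y, ∃ (A : Set X) (B : Set Y) (W : Set (X × Y)), IsOpen A ∧ IsOpen B ∧
      p.1 ∈ A ∧ p.2 ∈ B ∧ W ∈ 𝒰 ∧ A ×ˢ B ⊆ W := by
    intro p
    have hp : p ∈ ⋃₀ 𝒰 := by rw [hcov]; trivial
    obtain ⟨W, hW, hpW⟩ := hp
    obtain ⟨A, B, hA, hB, hpA, hpB, hsub⟩ := isOpen_prod_iff.1 (hopen W hW) p.1 p.2 hpW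
    exact ⟨A, B, W, hA, hB, hpA, hpB, hW, hsub⟩
  choose A B W hA hB hpA hpB hW hsub using key
  obtain ⟨t, htc, -, ht⟩ := (isLindelof_univ (X := X × Y)).elim_nhds_subcover
    (fun p => A p ×ˢ B p) (fun p _ => ((hA p).prod (hB p)).mem_nhds ⟨hpA p, hpB p⟩)
  have htne : t.Nonempty := by
    by_contra hcon
    rw [not_nonempty_iff_eq_empty] at hcon
    obtain ⟨p⟩ := (inferInstance : Nonempty (X × Y))
    have := ht (mem_univ p)
    simp [hcon] at this
  obtain ⟨f, hf⟩ := htc.exists_eq_range htne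
  refine ⟨fun i => A (f i), fun i => B (f i), fun i => W (f i), fun i => hA _, fun i => hB _,
    fun i => hW _, fun i => hsub _, fun p => ?_⟩
  obtain ⟨q, hq, hpq⟩ := mem_iUnion₂.1 (ht (mem_univ p))
  rw [hf] at hq
  obtain ⟨i, rfl⟩ := hq
  exact ⟨i, hpq.1, hpq.2⟩

/-- Increasing compact exhaustions of sigma-compact sets. -/
theorem exists_exhaustion {X : Type} [TopologicalSpace X] {Q : Set X} (hQ : IsSigmaCompact Q) :
    ∃ K : ℕ → Set X, (∀ n, IsCompact (K n)) ∧ Monotone K ∧ ⋃ n, K n = Q := by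
  obtain ⟨K, hK, hKQ⟩ := hQ
  refine ⟨fun n => ⋃ m ∈ {m | m ≤ n}, K m, ?_, ?_, ?_⟩
  · intro n
    exact (finite_le_nat n).isCompact_biUnion fun m _ => hK m
  · intro a b hab
    exact biUnion_subset_biUnion_left fun m hm => le_trans hm hab
  · rw [← hKQ]
    ext x
    simp only [mem_iUnion, mem_ofPred_eq, exists_prop]
    constructor
    · rintro ⟨n, m, -, hx⟩
      exact ⟨m, hx⟩
    · rintro ⟨m, hx⟩
      exact ⟨m, m, le_refl _, hx⟩

/-- **Theorem.** Assume `𝔲 < 𝔤` (equivalently, semifilter trichotomy). If `X` is weakly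
concentrated and `Y` is Menger, then `X × Y` is Menger, provided it is Lindelof (which is
automatic for sets of reals). -/
theorem result (hug : uNumber < gNumber) (X Y : Type) [TopologicalSpace X] [TopologicalSpace Y]
    [LindelofSpace (X × Y)] (hX : WeaklyConcentrated X) (hY : IsMenger Y) :
    IsMenger (X × Y) := by
  classical
  intro 𝒰 h𝒰
  by_cases hne : Nonempty (X × Y)
  swap
  · refine ⟨fun _ => ∅, fun n => ⟨empty_subset _, finite_empty⟩, ?_⟩
    rw [eq_univ_iff_forall]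
    intro p
    exact absurd ⟨p⟩ hne
  obtain ⟨U, ℬ, hcard, hU, hℬ, hbase⟩ := exists_base
  have hcardg : #ℬ < gNumber := by rw [hcard]; exact hug
  have hinf : ℵ₀ ≤ uNumber := by
    rw [← hcard]
    exact aleph0_le_base hU hℬ hbase
  -- rectangles
  have hrect := fun n => exists_rectangles (h𝒰 n).1 (h𝒰 n).2
  choose I J G hI hJ hG hIJ hcov using hrect
  -- the bounds attached to sigma-compact sets
  have hdata : ∀ Q : Set X, IsSigmaCompact Q → ∃ (K : ℕ → Set X) (h : ℕ → ℕ),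
      Monotone K ∧ ⋃ n, K n = Q ∧
      ∀ y, {n | ∀ x ∈ K n, (x, y) ∈ rect (I n) (J n) (h n)} ∈ U := by
    intro Q hQ
    obtain ⟨K, hK, hKmono, hKQ⟩ := exists_exhaustion hQ
    have hex : ∀ (y : Y) (n : ℕ), ∃ k, ∀ x ∈ K n, (x, y) ∈ rect (I n) (J n) k := fun y n =>
      exists_rect (hI n) (hcov n) (hK n) y
    have husc : Usc (fun y n => Nat.find (hex y n)) := by
      intro n k
      have : {y | Nat.find (hex y n) ≤ k} = {y | ∀ x ∈ K n, (x, y) ∈ rect (I n) (J n) k} := by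
        ext y
        simp only [mem_ofPred_eq]
        constructor
        · intro hk x hx
          exact rect_mono _ _ hk (Nat.find_spec (hex y n) x hx)
        · intro hk
          exact Nat.find_min' (hex y n) hk
      rw [this]
      exact isOpen_right (hJ n) k (K n)
    obtain ⟨h, hh⟩ := menger_ultra hcardg hU hℬ hbase hY husc
    refine ⟨K, h, hKmono, hKQ, fun y => ?_⟩
    filter_upwards [hh y] with n hn x hx
    exact rect_mono _ _ hn (Nat.find_spec (hex y n) x hx)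
  choose! K h hKmono hKQ hKh using hdata
  -- the open sets attached to sigma-compact sets
  let V : Set X → Set ℕ → ℕ → Set X := fun Q B n =>
    {x | ∀ y ∈ {y : Y | ∀ m ∈ B, ∀ z ∈ K Q m, (z, y) ∈ rect (I m) (J m) (h Q m)},
      (x, y) ∈ rect (I n) (J n) (h Q n)}
  have hVopen : ∀ Q B n, IsOpen (V Q B n) := fun Q B n => isOpen_left (hI n) _ _
  have hKV : ∀ Q B n, n ∈ B → K Q n ⊆ V Q B n := by
    intro Q B n hn x hx y hy
    exact hy n hn x hx
  let 𝒱 : Set X → Set (Set X) := fun Q =>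
    (fun q : Set ℕ × Set ℕ => ⋃ n ∈ q.1 ∩ q.2, V Q q.1 n) '' (ℬ ×ˢ ℬ)
  obtain ⟨𝒬, h𝒬card, h𝒬, h𝒬x⟩ := hX 𝒱 (by
    intro Q hQ
    refine ⟨?_, ?_⟩
    · refine Cardinal.mk_image_le.trans ?_
      rw [Cardinal.mk_setProd, hcard]
      exact (Cardinal.mul_eq_self hinf).le
    · rintro _ ⟨⟨B, B'⟩, ⟨hB, hB'⟩, rfl⟩
      refine ⟨isOpen_biUnion fun n _ => hVopen Q B n, ?_⟩
      intro x hx
      rw [← hKQ Q hQ] at hx
      obtain ⟨m, hm⟩ := mem_iUnion.1 hx
      obtain ⟨n, hn, hmn⟩ :=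
        (infinite_of_mem hU (Filter.inter_mem (hℬ B hB) (hℬ B' hB'))).exists_gt m
      exact mem_iUnion₂.2 ⟨n, hn, hKV Q B n hn.1 (hKmono Q hQ hmn.le hm)⟩)
  obtain ⟨H, hH⟩ := functions_ultra hcardg hU hℬ hbase 𝒬 h𝒬card h
  -- the product is bounded by `H`
  have hfinal : ∀ p : X × Y, ∃ n, p ∈ rect (I n) (J n) (H n) := by
    rintro ⟨x, y⟩
    obtain ⟨Q, hQ, hxV⟩ := h𝒬x x
    obtain ⟨B, hB, hBy⟩ := hbase _ (hKh Q (h𝒬 Q hQ) y)
    have hy : y ∈ {y : Y | ∀ m ∈ B, ∀ z ∈ K Q m, (z, y) ∈ rect (I m) (J m) (h Q m)} :=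
      fun m hm => hBy hm
    have hxU : {n | x ∈ V Q B n} ∈ U := by
      refine mem_of_meets hbase fun B' hB' => ?_
      have h1 := hxV _ (mem_image_of_mem _ (show ((B, B') : Set ℕ × Set ℕ) ∈ ℬ ×ˢ ℬ from
        ⟨hB, hB'⟩))
      obtain ⟨n, hn, hxn⟩ := mem_iUnion₂.1 h1
      exact ⟨n, hn.2, hxn⟩
    obtain ⟨n, hn1, hn2⟩ := (infinite_of_mem hU (Filter.inter_mem hxU (hH Q hQ))).nonempty
    exact ⟨n, rect_mono _ _ hn2 (hn1 y hy)⟩
  refine ⟨fun n => G n '' {i | i ≤ H n}, fun n => ⟨?_, (finite_le_nat _).image _⟩, ?_⟩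
  · rintro _ ⟨i, -, rfl⟩
    exact hG n i
  · rw [eq_univ_iff_forall]
    intro p
    obtain ⟨n, i, hi, h1, h2⟩ := hfinal p
    exact mem_iUnion.2 ⟨n, G n i, mem_image_of_mem _ hi, hIJ n i ⟨h1, h2⟩⟩

end Pool.Agent.Results.MP_9a1337_lc.ProductivelyMenger
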